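import Pool.Agent.TreeGame200.Embed

/-!
# Infinite games on binary subtrees: non-determined, I-won and II-won sets of every dimension

For every subtree `T` of the binary tree whose canopy has Hausdorff dimension `d > 1/2`, and every
`δ ∈ [1/2, d]`, there are subsets of the canopy of Hausdorff dimension exactly `δ` that are
non-determined, won by Player I, and won by Player II.
-/

namespace Pool.Agent.Results.MP_decccb_lc.ExactDimension

open Set MeasureTheory Pool.Agent.TreeGame200
open scoped ENNReal NNReal Topology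

/-- The initial segment `⟨x 0, …, x (n-1)⟩`. -/
def pre (x : Seq) : ℕ → List Bool
  | 0 => []
  | n + 1 => pre x n ++ [x n]

/-- Subtrees of the tree of finite binary sequences. -/
def IsSubtree (T : Set (List Bool)) : Prop :=
  (∀ s t : List Bool, s <+: t → t ∈ T → s ∈ T) ∧ ∀ s ∈ T, ∃ t ∈ T, s <+: t ∧ s ≠ t

/-- The canopy of a subtree. -/
def canopy (T : Set (List Bool)) : Set Seq := {x | ∀ n, pre x n ∈ T}

/-- `σ` only prescribes moves that stay in `T`; the player moves at positions of length congruent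
to `b` modulo `2` (`b = 0` for Player I, `b = 1` for Player II). -/
def Legal (T : Set (List Bool)) (b : ℕ) (σ : List Bool → Bool) : Prop :=
  ∀ s ∈ T, s.length % 2 = b → s ++ [σ s] ∈ T

/-- The play `x` is consistent with the strategy `σ`. -/
def Follows (b : ℕ) (σ : List Bool → Bool) (x : Seq) : Prop :=
  ∀ n, n % 2 = b → x n = σ (pre x n)

/-- Player I has a winning strategy in the game `(T, W)`. -/
def WinsI (T : Set (List Bool)) (W : Set Seq) : Prop :=
  ∃ σ, Legal T 0 σ ∧ ∀ x ∈ canopy T, Follows 0 σ x → x ∈ W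

/-- Player II has a winning strategy in the game `(T, W)`. -/
def WinsII (T : Set (List Bool)) (W : Set Seq) : Prop :=
  ∃ σ, Legal T 1 σ ∧ ∀ x ∈ canopy T, Follows 1 σ x → x ∉ W

theorem pre_eq (x : Seq) (n : ℕ) : pre x n = (rp x n).reverse := by
  induction n with
  | zero => rfl
  | succ n ih => rw [pre, rp_succ, ih, List.reverse_cons]

/-! ### Relatively open sets of full dimension contain subsets of exact dimension -/

theorem exact_of_open {K G : Set Seq} (hK : IsClosed K) (hGK : G ⊆ K)
    (hG : ∀ x ∈ G, ∃ n, K ∩ Cyl (rp x n) ⊆ G) (hd : 1 / 2 < dimH K)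
    (hc : dimH (K \ G) ≤ 1 / 2) {δ : ℝ≥0∞} (h1 : 1 / 2 ≤ δ) (h2 : δ ≤ dimH K) :
    ∃ V ⊆ G, dimH V = δ := by
  have hGd : dimH G = dimH K := by
    apply le_antisymm (dimH_mono hGK)
    have h3 : dimH K = max (dimH G) (dimH (K \ G)) := by
      rw [← dimH_union, union_sdiff_cancel hGK]
    rcases le_total (dimH G) (dimH (K \ G)) with h | h
    · rw [max_eq_right h] at h3
      rw [h3] at hd
      exact absurd hd (not_lt.2 hc)
    · rw [max_eq_left h] at h3
      exact h3.le
  rcases eq_or_lt_of_le h2 with h | h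
  · exact ⟨G, Subset.rfl, by rw [hGd, h]⟩
  · have hU : G = ⋃ r : {r : List Bool // K ∩ Cyl r ⊆ G}, K ∩ Cyl r.1 := by
      apply Subset.antisymm
      · intro x hx
        obtain ⟨n, hn⟩ := hG x hx
        exact mem_iUnion.2 ⟨⟨rp x n, hn⟩, hGK hx, self_mem_Cyl x n⟩
      · exact iUnion_subset (fun r => r.2)
    have h3 : δ < ⨆ r : {r : List Bool // K ∩ Cyl r ⊆ G}, dimH (K ∩ Cyl r.1) := by
      rw [← dimH_iUnion, ← hU, hGd]
      exact h
    obtain ⟨r, hr⟩ := lt_iSup_iff.1 h3
    lift δ to ℝ≥0 using h.ne_top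
    obtain ⟨V, hV1, hV2⟩ := exists_exact (hK.inter (isClosed_Cyl r.1)) (δ := δ)
      (by
        have h4 : ((1 / 2 : ℝ≥0) : ℝ≥0∞) ≤ δ := by
          rw [ENNReal.coe_div (by norm_num)]
          simpa using h1
        exact_mod_cast h4) hr
    exact ⟨V, hV1.trans r.2, hV2⟩

/-- following a family of legal moves from a node -/
theorem exists_play {K : Set Seq} (hK : IsClosed K) (f : List Bool → Bool)
    (hf : ∀ p, (K ∩ Cyl p).Nonempty → (K ∩ Cyl (f p :: p)).Nonempty) (p : List Bool)
    (hp : (K ∩ Cyl p).Nonempty) :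
    ∃ z ∈ K, z ∈ Cyl p ∧ ∀ n, p.length ≤ n → z n = f (rp z n) := by
  obtain ⟨z, hz⟩ := rec_seq (fun n q => if n < p.length then dext p n else f q)
  have h1 : z ∈ Cyl p := by
    rw [mem_Cyl]
    have h2 : rp z p.length = rp (dext p) p.length := by
      rw [rp_eq_rp]
      intro i hi
      rw [hz i, if_pos hi]
    rw [h2]
    exact dext_mem p
  have h3 : ∀ n, p.length ≤ n → z n = f (rp z n) := by
    intro n hn
    have := hz n
    rwa [if_neg (by omega)] at this
  refine ⟨z, ?_, h1, h3⟩
  have h4 : ∀ n, (K ∩ Cyl (rp z (p.length + n))).Nonempty := by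
    intro n
    induction n with
    | zero => rw [add_zero, mem_Cyl.1 h1]; exact hp
    | succ n ih =>
      rw [← add_assoc, rp_succ, h3 _ (by omega)]
      exact hf _ ih
  apply mem_of_closed hK
  intro n
  obtain ⟨y, hy1, hy2⟩ := h4 n
  exact ⟨y, hy1, Emb.Cyl_anti (rp_suffix (by omega)) hy2⟩

/-- the play leaves the embedded tree at its `i`-th move -/
def Dep {K : Set Seq} (e : Emb K) (x : Seq) (i : ℕ) : Prop :=
  e.UT (rp x i) ∧ ¬ e.UT (rp x (i + 1))

theorem Dep_unique {K : Set Seq} (e : Emb K) {x : Seq} {i j : ℕ} (hi : Dep e x i)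
    (hj : Dep e x j) : i = j := by
  rcases lt_trichotomy i j with h | h | h
  · exact absurd (e.UT_suffix (rp_suffix (by omega : i + 1 ≤ j)) hj.1) hi.2
  · exact h
  · exact absurd (e.UT_suffix (rp_suffix (by omega : j + 1 ≤ i)) hi.1) hj.2

theorem exists_Dep {K : Set Seq} (e : Emb K) {x : Seq} (h : ¬ ∀ n, e.UT (rp x n)) :
    ∃ i, Dep e x i := by
  classical
  push Not at h
  have h1 := Nat.find_spec h
  have h2 : Nat.find h ≠ 0 := by
    intro h0
    rw [h0] at h1
    exact h1 ⟨[], List.nil_suffix⟩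
  obtain ⟨i, hi⟩ := Nat.exists_eq_succ_of_ne_zero h2
  refine ⟨i, ?_, ?_⟩
  · by_contra h3
    exact Nat.find_min h (by omega : i < Nat.find h) h3
  · rw [show i + 1 = Nat.find h from hi.symm]
    exact h1

theorem Dep_of_rp {K : Set Seq} (e : Emb K) {x y : Seq} {i n : ℕ} (hn : i < n)
    (h : rp y n = rp x n) (hd : Dep e x i) : Dep e y i := by
  refine ⟨?_, ?_⟩
  · rw [rp_eq_of_le h (by omega)]; exact hd.1
  · rw [rp_eq_of_le h (by omega)]; exact hd.2

/-- The core statement, for closed sets. `σ` ranges over strategies on reversed sequences. -/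
theorem core {K : Set Seq} (hK : IsClosed K) (hd : 1 / 2 < dimH K) {δ : ℝ≥0∞} (h1 : 1 / 2 ≤ δ)
    (h2 : δ ≤ dimH K) :
    ∃ W ⊆ K, dimH W = δ ∧
      (∀ σ : List Bool → Bool, (∀ p, (K ∩ Cyl p).Nonempty → p.length % 2 = 0 →
          (K ∩ Cyl (σ p :: p)).Nonempty) →
        ∃ x ∈ K, (∀ n, n % 2 = 0 → x n = σ (rp x n)) ∧ x ∉ W) ∧
      (∀ σ : List Bool → Bool, (∀ p, (K ∩ Cyl p).Nonempty → p.length % 2 = 1 →
          (K ∩ Cyl (σ p :: p)).Nonempty) →
        ∃ x ∈ K, (∀ n, n % 2 = 1 → x n = σ (rp x n)) ∧ x ∈ W) := by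
  classical
  obtain ⟨e⟩ := exists_emb hd
  obtain ⟨B, hB1, hB2⟩ := TreeGame200.bernstein
  -- default moves
  let df : List Bool → Bool := fun p => decide ¬ (K ∩ Cyl (false :: p)).Nonempty
  have hdf : ∀ p, (K ∩ Cyl p).Nonempty → (K ∩ Cyl (df p :: p)).Nonempty := by
    rintro p ⟨x, hx1, hx2⟩
    by_cases h : (K ∩ Cyl (false :: p)).Nonempty
    · have : df p = false := by simp only [df]; simpa using h
      rw [this]; exact h
    · have : df p = true := by simp only [df]; simpa using h
      rw [this]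
      refine ⟨x, hx1, ?_⟩
      rw [Cyl_split] at hx2
      rcases hx2 with h3 | h3
      · exact absurd ⟨x, hx1, h3⟩ h
      · exact h3
  have hphiK : ∀ y, e.phi y ∈ K := by
    intro y
    apply mem_of_closed hK
    intro n
    have hb : (K ∩ Cyl (e.nd (rp y n))).Nonempty := by
      have := e.big (rp y n) false
      rw [nonempty_iff_ne_empty]
      intro hem
      have h3 : K ∩ Cyl (false :: e.nd (rp y n)) = ∅ := by
        rw [← subset_empty_iff, ← hem]
        exact inter_subset_inter_right _ (Emb.Cyl_anti (List.suffix_cons _ _))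
      unfold Big at this
      rw [h3, dimH_empty] at this
      exact absurd this (by simp)
    obtain ⟨z, hz1, hz2⟩ := hb
    refine ⟨z, hz1, ?_⟩
    have h4 := e.phi_mem y n
    have h5 : rp (e.phi y) n <:+ e.nd (rp y n) := by
      rw [← mem_Cyl.1 h4]
      apply rp_suffix
      have := e.len0 (rp y n)
      rw [rp_length] at this
      omega
    exact Emb.Cyl_anti h5 hz2
  have hphiD : ∀ y i, ¬ Dep e (e.phi y) i := fun y i h => h.2 (e.phi_UT y (i + 1))
  let W2 : Set Seq := {x | x ∈ K ∧ ∃ i, i % 2 = 1 ∧ Dep e x i ∧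
    ∀ n, i < n → n % 2 = 0 → x n = df (rp x n)}
  let G : Set Seq := {x | x ∈ K ∧ ((∃ i, i % 2 = 1 ∧ Dep e x i) ∨
    (∃ i, i % 2 = 0 ∧ Dep e x i ∧ ∃ n, i < n ∧ n % 2 = 1 ∧ x n ≠ df (rp x n)))}
  have hGopen : ∀ x ∈ G, ∃ n, K ∩ Cyl (rp x n) ⊆ G := by
    rintro x ⟨hx, ⟨i, hi1, hi2⟩ | ⟨i, hi1, hi2, n, hn1, hn2, hn3⟩⟩
    · refine ⟨i + 1, fun z hz => ⟨hz.1, Or.inl ⟨i, hi1, ?_⟩⟩⟩
      have h3 : rp z (i + 1) = rp x (i + 1) := rp_eq_rp.2 (mem_Cyl_rp.1 hz.2)
      exact Dep_of_rp e (by omega) h3 hi2
    · refine ⟨n + 1, fun z hz => ⟨hz.1, Or.inr ⟨i, hi1, ?_, n, hn1, hn2, ?_⟩⟩⟩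
      · have h3 : rp z (n + 1) = rp x (n + 1) := rp_eq_rp.2 (mem_Cyl_rp.1 hz.2)
        exact Dep_of_rp e (by omega) h3 hi2
      · have h3 : rp z n = rp x n := rp_eq_rp.2 (fun i hi => mem_Cyl_rp.1 hz.2 i (by omega))
        rw [h3, mem_Cyl_rp.1 hz.2 n (by omega)]
        exact hn3
  have hGc : dimH (K \ G) ≤ 1 / 2 := by
    have hsub : K \ G ⊆ {x : Seq | ∀ n, e.UT (rp x n)} ∪
        ⋃ i : ℕ, {x : Seq | ∀ n, i + 1 ≤ n → n % 2 = 1 → x n = df (rp x n)} := by
      rintro x ⟨hxK, hxG⟩
      by_cases h : ∀ n, e.UT (rp x n)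
      · exact Or.inl h
      · right
        obtain ⟨i, hi⟩ := exists_Dep e h
        rw [mem_iUnion]
        refine ⟨i, fun n hn hn2 => ?_⟩
        by_contra hne
        apply hxG
        refine ⟨hxK, ?_⟩
        rcases Nat.mod_two_eq_zero_or_one i with h0 | h0
        · exact Or.inr ⟨i, h0, hi, n, by omega, hn2, hne⟩
        · exact Or.inl ⟨i, h0, hi⟩
    refine (dimH_mono hsub).trans ?_
    rw [dimH_union, dimH_iUnion]
    exact max_le e.dimH_UT (iSup_le fun i => dimH_one_player (by omega) _ _)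
  obtain ⟨V, hV1, hV2⟩ := exact_of_open hK (fun x hx => hx.1) hGopen hd hGc h1 h2
  refine ⟨e.phi '' B ∪ W2 ∪ V, ?_, ?_, ?_, ?_⟩
  · rintro x ((⟨y, _, rfl⟩ | hx) | hx)
    · exact hphiK y
    · exact hx.1
    · exact (hV1 hx).1
  · rw [dimH_union, dimH_union, hV2]
    have d1 : dimH (e.phi '' B) ≤ 1 / 2 := by
      refine (dimH_mono ?_).trans e.dimH_UT
      rintro x ⟨y, _, rfl⟩ n
      exact e.phi_UT y n
    have d2 : dimH W2 ≤ 1 / 2 := by
      have hsub : W2 ⊆ ⋃ i : ℕ, {x : Seq | ∀ n, i + 1 ≤ n → n % 2 = 0 → x n = df (rp x n)} := by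
        rintro x ⟨_, i, _, _, hi⟩
        exact mem_iUnion.2 ⟨i, fun n hn hn2 => hi n (by omega) hn2⟩
      refine (dimH_mono hsub).trans ?_
      rw [dimH_iUnion]
      exact iSup_le fun i => dimH_one_player (by omega) _ _
    rw [max_eq_right]
    exact (max_le d1 d2).trans h1
  · -- no winning strategy for Player I
    intro σ hσ
    obtain ⟨y, hyB, hy⟩ := hB1 (fun p => σ (e.nd p))
    by_cases hall : ∀ n, n % 2 = 0 → e.phi y n = σ (rp (e.phi y) n)
    · refine ⟨e.phi y, hphiK y, hall, ?_⟩
      rintro ((⟨y', hy', h⟩ | hx) | hx)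
      · rw [e.phi_injective h] at hy'
        exact hyB hy'
      · obtain ⟨_, i, _, hi, _⟩ := hx
        exact hphiD y i hi
      · obtain ⟨_, ⟨i, _, hi⟩ | ⟨i, _, hi, _⟩⟩ := hV1 hx
        · exact hphiD y i hi
        · exact hphiD y i hi
    · push Not at hall
      have hspec := Nat.find_spec hall
      have hmin : ∀ n, n < Nat.find hall → n % 2 = 0 → e.phi y n = σ (rp (e.phi y) n) := by
        intro n hn hn2
        by_contra hne
        exact Nat.find_min hall hn ⟨hn2, hne⟩
      set i := Nat.find hall with hi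
      set q := rp (e.phi y) i with hq
      have hql : q.length = i := by rw [hq, rp_length]
      have hUq : e.UT q := e.phi_UT y i
      have hqK : (K ∩ Cyl q).Nonempty := ⟨e.phi y, hphiK y, self_mem_Cyl _ _⟩
      have hnU : ¬ e.UT (σ q :: q) := by
        intro hU
        have hU2 : e.UT (e.phi y i :: q) := by
          have := e.phi_UT y (i + 1)
          rwa [rp_succ] at this
        obtain ⟨p, hp⟩ := e.UT_split (Ne.symm hspec.2) hU hU2
        have h3 : e.phi y ∈ Cyl (e.nd p) := by
          rw [← hp]; exact self_mem_Cyl _ _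
        have h4 := e.nd_Cyl y p h3
        have h5 : p.length % 2 = 0 := by
          rw [← e.par p, ← hp, hql]; exact hspec.1
        have h6 := e.phi_apply y p.length
        rw [h4, ← hp, hql, hy p.length h5, h4, ← hp] at h6
        exact hspec.2 h6
      have hcK : (K ∩ Cyl (σ q :: q)).Nonempty := hσ q hqK (by rw [hql]; exact hspec.1)
      obtain ⟨z, hzK, hzC, hz⟩ := exists_play hK
        (fun p => if p.length % 2 = 0 then σ p else df p) (by
          intro p hp
          by_cases h : p.length % 2 = 0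
          · rw [if_pos h]; exact hσ p hp h
          · rw [if_neg h]; exact hdf p hp) (σ q :: q) hcK
      have hzq : rp z i = q := by
        have := (mem_Cyl_cons.1 hzC).1
        rw [mem_Cyl, hql] at this
        exact this
      have hzi : z i = σ q := by
        have := (mem_Cyl_cons.1 hzC).2
        rwa [hql] at this
      have hzd : Dep e z i := by
        refine ⟨by rw [hzq]; exact hUq, ?_⟩
        rw [rp_succ, hzq, hzi]
        exact hnU
      have hlen : (σ q :: q).length = i + 1 := by rw [List.length_cons, hql]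
      refine ⟨z, hzK, ?_, ?_⟩
      · intro n hn
        rcases lt_trichotomy n i with h | h | h
        · have h3 : rp z n = rp (e.phi y) n := by
            have : rp z i = rp (e.phi y) i := hzq
            exact rp_eq_of_le this (by omega)
          have h4 : z n = e.phi y n := rp_eq_rp.1 (hzq : rp z i = rp (e.phi y) i) n h
          rw [h4, h3]
          exact hmin n h hn
        · subst h
          rw [hzi, hzq]
        · have h5 := hz n (by rw [hlen]; omega)
          rw [rp_length, if_pos hn] at h5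
          exact h5
      · rintro ((⟨y', hy', h⟩ | hx) | hx)
        · rw [← h] at hzd
          exact hphiD y' i hzd
        · obtain ⟨_, j, hj1, hj, _⟩ := hx
          have := Dep_unique e hj hzd
          have := hspec.1
          omega
        · obtain ⟨_, ⟨j, hj1, hj⟩ | ⟨j, hj1, hj, n, hn1, hn2, hn3⟩⟩ := hV1 hx
          · have := Dep_unique e hj hzd
            have := hspec.1
            omega
          · have h3 := Dep_unique e hj hzd
            have h5 := hz n (by rw [hlen]; omega)
            rw [rp_length, if_neg (by omega)] at h5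
            exact hn3 h5
  · -- no winning strategy for Player II
    intro σ hσ
    obtain ⟨y, hyB, hy⟩ := hB2 (fun p => σ (e.nd p))
    by_cases hall : ∀ n, n % 2 = 1 → e.phi y n = σ (rp (e.phi y) n)
    · exact ⟨e.phi y, hphiK y, hall, Or.inl (Or.inl ⟨y, hyB, rfl⟩)⟩
    · push Not at hall
      have hspec := Nat.find_spec hall
      have hmin : ∀ n, n < Nat.find hall → n % 2 = 1 → e.phi y n = σ (rp (e.phi y) n) := by
        intro n hn hn2
        by_contra hne
        exact Nat.find_min hall hn ⟨hn2, hne⟩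
      set i := Nat.find hall with hi
      set q := rp (e.phi y) i with hq
      have hql : q.length = i := by rw [hq, rp_length]
      have hUq : e.UT q := e.phi_UT y i
      have hqK : (K ∩ Cyl q).Nonempty := ⟨e.phi y, hphiK y, self_mem_Cyl _ _⟩
      have hnU : ¬ e.UT (σ q :: q) := by
        intro hU
        have hU2 : e.UT (e.phi y i :: q) := by
          have := e.phi_UT y (i + 1)
          rwa [rp_succ] at this
        obtain ⟨p, hp⟩ := e.UT_split (Ne.symm hspec.2) hU hU2
        have h3 : e.phi y ∈ Cyl (e.nd p) := by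
          rw [← hp]; exact self_mem_Cyl _ _
        have h4 := e.nd_Cyl y p h3
        have h5 : p.length % 2 = 1 := by
          rw [← e.par p, ← hp, hql]; exact hspec.1
        have h6 := e.phi_apply y p.length
        rw [h4, ← hp, hql, hy p.length h5, h4, ← hp] at h6
        exact hspec.2 h6
      have hcK : (K ∩ Cyl (σ q :: q)).Nonempty := hσ q hqK (by rw [hql]; exact hspec.1)
      obtain ⟨z, hzK, hzC, hz⟩ := exists_play hK
        (fun p => if p.length % 2 = 1 then σ p else df p) (by
          intro p hp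
          by_cases h : p.length % 2 = 1
          · rw [if_pos h]; exact hσ p hp h
          · rw [if_neg h]; exact hdf p hp) (σ q :: q) hcK
      have hzq : rp z i = q := by
        have := (mem_Cyl_cons.1 hzC).1
        rw [mem_Cyl, hql] at this
        exact this
      have hzi : z i = σ q := by
        have := (mem_Cyl_cons.1 hzC).2
        rwa [hql] at this
      have hzd : Dep e z i := by
        refine ⟨by rw [hzq]; exact hUq, ?_⟩
        rw [rp_succ, hzq, hzi]
        exact hnU
      have hlen : (σ q :: q).length = i + 1 := by rw [List.length_cons, hql]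
      refine ⟨z, hzK, ?_, ?_⟩
      · intro n hn
        rcases lt_trichotomy n i with h | h | h
        · have h3 : rp z n = rp (e.phi y) n := by
            have : rp z i = rp (e.phi y) i := hzq
            exact rp_eq_of_le this (by omega)
          have h4 : z n = e.phi y n := rp_eq_rp.1 (hzq : rp z i = rp (e.phi y) i) n h
          rw [h4, h3]
          exact hmin n h hn
        · subst h
          rw [hzi, hzq]
        · have h5 := hz n (by rw [hlen]; omega)
          rw [rp_length, if_pos hn] at h5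
          exact h5
      · refine Or.inl (Or.inr ⟨hzK, i, hspec.1, hzd, fun n hn hn2 => ?_⟩)
        have h5 := hz n (by rw [hlen]; omega)
        rw [rp_length, if_neg (by omega)] at h5
        exact h5

/-- **Theorem.** Let `T` be a subtree of the binary tree with `dimH [T] > 1/2`. For every
`δ ∈ [1/2, dimH [T]]` there are subsets of the canopy `[T]` of Hausdorff dimension exactly `δ` that
are, respectively, non-determined, won by Player I and won by Player II. -/
theorem result (T : Set (List Bool)) (hT : IsSubtree T) (hd : 1 / 2 < dimH (canopy T))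
    (δ : ℝ≥0∞) (h1 : 1 / 2 ≤ δ) (h2 : δ ≤ dimH (canopy T)) :
    ∃ W WI WII : Set Seq, W ⊆ canopy T ∧ WI ⊆ canopy T ∧ WII ⊆ canopy T ∧
      dimH W = δ ∧ dimH WI = δ ∧ dimH WII = δ ∧
      (¬ WinsI T W ∧ ¬ WinsII T W) ∧ WinsI T WI ∧ WinsII T WII := by
  classical
  set K := canopy T with hKdef
  have hmem : ∀ x : Seq, x ∈ K ↔ ∀ n, (rp x n).reverse ∈ T := by
    intro x
    rw [hKdef]
    simp only [canopy, mem_ofPred_eq, pre_eq]
  have hK : IsClosed K := by
    apply isClosed_of_prefix
    intro x hx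
    rw [hmem] at hx
    push Not at hx
    obtain ⟨n, hn⟩ := hx
    refine ⟨n, fun y hy hyK => ?_⟩
    rw [hmem] at hyK
    have := hyK n
    rw [rp_eq_rp.2 hy] at this
    exact hn this
  have hchild : ∀ p : List Bool, p.reverse ∈ T → ∃ b, (b :: p).reverse ∈ T := by
    intro p hp
    obtain ⟨t, ht, ⟨r, hr⟩, hne⟩ := hT.2 _ hp
    cases r with
    | nil => simp at hr; exact absurd hr (by simpa using hne)
    | cons b r =>
      refine ⟨b, hT.1 _ t ?_ ht⟩
      rw [List.reverse_cons]
      exact ⟨r, by rw [← hr]; simp⟩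
  have hnode : ∀ p : List Bool, p.reverse ∈ T ↔ (K ∩ Cyl p).Nonempty := by
    intro p
    constructor
    · intro hp
      obtain ⟨x, hx1, hx2⟩ := exists_path_from (fun q => q.reverse ∈ T) p hp hchild
      refine ⟨x, ?_, hx1⟩
      rw [hmem]
      intro n
      rcases le_total p.length n with h | h
      · exact hx2 n h
      · apply hT.1 _ _ _ (hx2 p.length le_rfl)
        rw [List.reverse_prefix]
        exact rp_suffix h
    · rintro ⟨x, hx1, hx2⟩
      rw [hmem] at hx1
      have := hx1 p.length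
      rwa [mem_Cyl.1 hx2] at this
  -- default moves
  let df : List Bool → Bool := fun p => decide ¬ (K ∩ Cyl (false :: p)).Nonempty
  have hdf : ∀ p, (K ∩ Cyl p).Nonempty → (K ∩ Cyl (df p :: p)).Nonempty := by
    rintro p ⟨x, hx1, hx2⟩
    by_cases h : (K ∩ Cyl (false :: p)).Nonempty
    · have : df p = false := by simp only [df]; simpa using h
      rw [this]; exact h
    · have : df p = true := by simp only [df]; simpa using h
      rw [this]
      refine ⟨x, hx1, ?_⟩
      rw [Cyl_split] at hx2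
      rcases hx2 with h3 | h3
      · exact absurd ⟨x, hx1, h3⟩ h
      · exact h3
  have hlegal : ∀ b, Legal T b (fun s => df s.reverse) := by
    intro b s hs _
    have h3 := hdf s.reverse ((hnode _).1 (by rwa [List.reverse_reverse]))
    have h4 := (hnode _).2 h3
    rwa [List.reverse_cons, List.reverse_reverse] at h4
  have hfol : ∀ b x, Follows b (fun s => df s.reverse) x ↔ ∀ n, n % 2 = b → x n = df (rp x n) := by
    intro b x
    unfold Follows
    simp only [pre_eq, List.reverse_reverse]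
  obtain ⟨W, hW1, hW2, hW3, hW4⟩ := core hK hd h1 h2
  obtain ⟨V, hV1, hV2⟩ := exact_of_open hK Subset.rfl
    (fun x _ => ⟨0, inter_subset_left⟩) hd (by rw [sdiff_self]; simp) h1 h2
  obtain ⟨V', hV'1, hV'2⟩ := exact_of_open hK
    (G := {x | x ∈ K ∧ ∃ n, n % 2 = 1 ∧ x n ≠ df (rp x n)}) (fun x hx => hx.1)
    (by
      rintro x ⟨hx, n, hn1, hn2⟩
      refine ⟨n + 1, fun z hz => ⟨hz.1, n, hn1, ?_⟩⟩
      have h3 : rp z n = rp x n := rp_eq_rp.2 (fun i hi => mem_Cyl_rp.1 hz.2 i (by omega))
      rw [h3, mem_Cyl_rp.1 hz.2 n (by omega)]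
      exact hn2) hd
    (by
      refine (dimH_mono ?_).trans (dimH_one_player (b := 1) (by omega) 0 df)
      rintro x ⟨hxK, hx⟩ n _ hn
      by_contra hne
      exact hx ⟨hxK, n, hn, hne⟩) h1 h2
  refine ⟨W, {x | x ∈ K ∧ ∀ n, n % 2 = 0 → x n = df (rp x n)} ∪ V, V', hW1, ?_,
    hV'1.trans (fun x hx => hx.1), hW2, ?_, hV'2, ⟨?_, ?_⟩, ?_, ?_⟩
  · rintro x (hx | hx)
    · exact hx.1
    · exact hV1 hx
  · rw [dimH_union, hV2, max_eq_right]
    refine le_trans ?_ h1
    refine (dimH_mono ?_).trans (dimH_one_player (b := 0) (by omega) 0 df)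
    rintro x ⟨_, hx⟩ n _ hn
    exact hx n hn
  · rintro ⟨σ, hσ1, hσ2⟩
    obtain ⟨x, hx1, hx2, hx3⟩ := hW3 (fun p => σ p.reverse) (by
      intro p hp hp2
      rw [← hnode, List.reverse_cons]
      exact hσ1 _ ((hnode p).2 hp) (by rw [List.length_reverse]; exact hp2))
    apply hx3
    apply hσ2 x hx1
    intro n hn
    rw [pre_eq]
    exact hx2 n hn
  · rintro ⟨σ, hσ1, hσ2⟩
    obtain ⟨x, hx1, hx2, hx3⟩ := hW4 (fun p => σ p.reverse) (by
      intro p hp hp2
      rw [← hnode, List.reverse_cons]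
      exact hσ1 _ ((hnode p).2 hp) (by rw [List.length_reverse]; exact hp2))
    refine hσ2 x hx1 ?_ hx3
    intro n hn
    rw [pre_eq]
    exact hx2 n hn
  · refine ⟨fun s => df s.reverse, hlegal 0, fun x hx hf => Or.inl ⟨hx, ?_⟩⟩
    exact (hfol 0 x).1 hf
  · refine ⟨fun s => df s.reverse, hlegal 1, fun x _ hf hx => ?_⟩
    obtain ⟨_, n, hn1, hn2⟩ := hV'1 hx
    exact hn2 ((hfol 1 x).1 hf n hn1)

end Pool.Agent.Results.MP_decccb_lc.ExactDimension
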